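import Pool.Agent.Helper65.HF.StA

/-! # Project HF: leading positions of a subspace (ECH) -/

set_option autoImplicit false

namespace Pool.Agent.Helper41.HF

open Pool.Agent.Helper65.HF

theorem echMax {ι : Type} [Finite ι] (r : ι → ι → Prop) (hirr : ∀ i, ¬ r i i)
    (htr : ∀ i b c, r i b → r b c → r i c) (S : Set ι) (hS : S.Nonempty) :
    ∃ a ∈ S, ∀ x ∈ S, ¬ r a x := by
  have : IsTrans ι (fun a b => r b a) := ⟨fun a b c hab hbc => htr c b a hbc hab⟩
  have : Std.Irrefl (fun a b : ι => r b a) := ⟨fun a => hirr a⟩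
  exact (Finite.wellFounded_of_trans_of_irrefl (fun a b : ι => r b a)).has_min S hS

theorem hECH : sECH := by
  intro F _ ι _ r hirr htr htot J
  classical
  rw [Nat.card_eq_fintype_card]
  apply le_antisymm
  · choose v hvJ hv0 hv1 using
      fun i : {i : ι // ∃ f ∈ J, f i ≠ 0 ∧ ∀ b, r i b → f b = 0} => i.2
    have hli : LinearIndependent F
        (fun i : {i : ι // ∃ f ∈ J, f i ≠ 0 ∧ ∀ b, r i b → f b = 0} => (⟨v i, hvJ i⟩ : J)) := by
      rw [Fintype.linearIndependent_iff]
      intro c hc
      by_contra hcon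
      push Not at hcon
      obtain ⟨i1, hi1⟩ := hcon
      obtain ⟨i0, hi0, hm⟩ := echMax
        (fun a b : {i : ι // ∃ f ∈ J, f i ≠ 0 ∧ ∀ b, r i b → f b = 0} => r a.1 b.1)
        (fun i => hirr i.1) (fun a b d => htr a.1 b.1 d.1) {i | c i ≠ 0} ⟨i1, hi1⟩
      have h1 := congrArg (fun f : J => (f : ι → F) i0.1) hc
      simp only [Submodule.coe_sum, Submodule.coe_smul, Finset.sum_apply, Pi.smul_apply,
        smul_eq_mul, Submodule.coe_zero, Pi.zero_apply] at h1
      rw [Finset.sum_eq_single i0] at h1
      · rcases mul_eq_zero.1 h1 with h | h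
        · exact hi0 h
        · exact hv0 i0 h
      · intro b _ hb
        rcases htot b.1 i0.1 with h | h | h
        · exact absurd (Subtype.ext h) hb
        · rw [hv1 b _ h, mul_zero]
        · have : c b = 0 := by
            by_contra hcb
            exact hm b hcb h
          rw [this, zero_mul]
      · intro h
        exact absurd (Finset.mem_univ _) h
    exact hli.fintype_card_le_finrank
  · have hinj : Function.Injective
        ((LinearMap.funLeft F F (Subtype.val :
          {i : ι // ∃ f ∈ J, f i ≠ 0 ∧ ∀ b, r i b → f b = 0} → ι)).comp J.subtype) := by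
      rw [← LinearMap.ker_eq_bot, LinearMap.ker_eq_bot']
      intro f hf
      by_contra hne
      have hne' : ∃ i, (f : ι → F) i ≠ 0 := by
        by_contra hcon
        push Not at hcon
        exact hne (Subtype.ext (funext hcon))
      obtain ⟨a, ha, hm⟩ := echMax r hirr htr {i | (f : ι → F) i ≠ 0} hne'
      have hlead : ∃ f ∈ J, f a ≠ 0 ∧ ∀ b, r a b → f b = 0 :=
        ⟨f, f.2, ha, fun b hb => by
          by_contra h
          exact hm b h hb⟩
      exact ha (congrFun hf ⟨a, hlead⟩)
    have h := LinearMap.finrank_le_finrank_of_injective hinj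
    rwa [Module.finrank_fintype_fun_eq_card] at h

end Pool.Agent.Helper41.HF
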